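import Pool.Agent.Helper64.SPX.Spec

/-!
# Part LIM: vague compactness along an ultrafilter
-/

set_option autoImplicit false
set_option linter.all false

open MeasureTheory Filter Topology Set
open scoped InnerProductSpace ENNReal CompactlySupported

namespace Pool.Agent.Helper86.SPX.LIM

open Pool.Agent.Helper64.SPX

theorem bounded_limit (u : ℕ → ℝ) (C : ℝ) (h : ∀ k, |u k| ≤ C) :
    ∃ L, Tendsto u (hyperfilter ℕ : Filter ℕ) (𝓝 L) := by
  have hc : IsCompact (Icc (-C) C) := isCompact_Icc
  have h1 : ((hyperfilter ℕ).map u : Filter ℝ) ≤ 𝓟 (Icc (-C) C) := by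
    rw [le_principal_iff]
    show u ⁻¹' Icc (-C) C ∈ (hyperfilter ℕ : Filter ℕ)
    have : u ⁻¹' Icc (-C) C = univ := by
      ext k
      simp only [mem_preimage, mem_univ, iff_true]
      exact abs_le.mp (h k)
    rw [this]
    exact Filter.univ_mem
  obtain ⟨L, _, hL⟩ := hc.ultrafilter_le_nhds ((hyperfilter ℕ).map u) h1
  exact ⟨L, hL⟩

theorem main : S_LIM := by
  intro ι _ μ hμ
  have hfin : ∀ k, IsLocallyFiniteMeasure (μ k) := by
    intro k
    refine ⟨fun x => ?_⟩
    obtain ⟨C, hC, h⟩ := hμ (‖x‖ + 1)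
    refine ⟨Metric.ball x 1, Metric.ball_mem_nhds x one_pos, ?_⟩
    refine lt_of_le_of_lt (measure_mono ?_) (lt_of_le_of_lt (h k) hC)
    intro y hy
    rw [mem_closedBall_zero_iff]
    rw [Metric.mem_ball, dist_eq_norm] at hy
    have : ‖y‖ ≤ ‖y - x‖ + ‖x‖ := by
      simpa using norm_add_le (y - x) x
    linarith
  have hint : ∀ (f : C_c(E ι, ℝ)) k, Integrable (fun t => f t) (μ k) := by
    intro f k
    haveI := hfin k
    exact f.continuous.integrable_of_hasCompactSupport f.hasCompactSupport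
  have hlim : ∀ f : C_c(E ι, ℝ), ∃ L : ℝ,
      Tendsto (fun k => ∫ t, f t ∂(μ k)) (hyperfilter ℕ : Filter ℕ) (𝓝 L) := by
    intro f
    obtain ⟨ρ, hρ⟩ := f.hasCompactSupport.isCompact.isBounded.subset_closedBall 0
    obtain ⟨C, hC, hCk⟩ := hμ ρ
    obtain ⟨M, hM⟩ := f.hasCompactSupport.exists_bound_of_continuous f.continuous
    have hM0 : 0 ≤ M := (norm_nonneg _).trans (hM 0)
    refine bounded_limit _ (M * C.toReal) fun k => ?_
    have h1 : ∫ t, f t ∂(μ k) = ∫ t in Metric.closedBall 0 ρ, f t ∂(μ k) := by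
      symm
      apply setIntegral_eq_integral_of_forall_compl_eq_zero
      intro x hx
      by_contra h0
      exact hx (hρ (subset_tsupport _ h0))
    have hlt : μ k (Metric.closedBall 0 ρ) < ⊤ := lt_of_le_of_lt (hCk k) hC
    rw [h1, ← Real.norm_eq_abs]
    refine (norm_setIntegral_le_of_norm_le_const hlt fun x _ => hM x).trans ?_
    refine mul_le_mul_of_nonneg_left ?_ hM0
    exact ENNReal.toReal_mono hC.ne (hCk k)
  choose L hL using hlim
  let Λ0 : C_c(E ι, ℝ) →ₗ[ℝ] ℝ :=
    { toFun := L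
      map_add' := by
        intro f g
        refine tendsto_nhds_unique (hL (f + g)) ?_
        have := (hL f).add (hL g)
        refine this.congr fun k => ?_
        rw [← integral_add (hint f k) (hint g k)]
        rfl
      map_smul' := by
        intro c f
        refine tendsto_nhds_unique (hL (c • f)) ?_
        have := (hL f).const_mul c
        refine this.congr fun k => ?_
        rw [← integral_const_mul]
        rfl }
  let Λ : C_c(E ι, ℝ) →ₚ[ℝ] ℝ := PositiveLinearMap.mk₀ Λ0 (by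
    intro f hf
    refine ge_of_tendsto' (hL f) fun k => ?_
    exact integral_nonneg fun t => hf t)
  refine ⟨RealRMK.rieszMeasure Λ, inferInstance, ?_⟩
  intro f hf hfc
  let F : C_c(E ι, ℝ) := ⟨⟨f, hf⟩, hfc⟩
  have h1 := RealRMK.integral_rieszMeasure Λ F
  have h2 : Λ F = L F := rfl
  have h3 : ∫ t, f t ∂(RealRMK.rieszMeasure Λ) = L F := by
    rw [← h2, ← h1]
    rfl
  rw [h3]
  exact hL F

end Pool.Agent.Helper86.SPX.LIM
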