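import Pool.Agent.Helper64.SPX.Spec

/-!
# Part T3: the tiling identity for vague limits
-/

set_option autoImplicit false
set_option linter.all false

open MeasureTheory Filter Topology Set
open scoped InnerProductSpace ENNReal CompactlySupported NNReal

namespace Pool.Agent.Helper86.SPX.T3

open Pool.Agent.Helper64.SPX

variable {ι : Type} [Fintype ι]

/-- The average of `φ` over the translate of `A`. -/
noncomputable def av (A : Set (E ι)) (φ : E ι → ℝ) (t : E ι) : ℝ := ∫ a in A, φ (t + a)

theorem av_cont {A : Set (E ι)} (hA : IsCompact A) {φ : E ι → ℝ} (hφ : Continuous φ) :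
    Continuous (av A φ) := by
  unfold av
  exact continuous_parametric_integral_of_continuous
    (f := fun t a => φ (t + a)) (by fun_prop) hA

theorem av_supp {A : Set (E ι)} (hA : IsCompact A) {φ : E ι → ℝ} (hc : HasCompactSupport φ) :
    HasCompactSupport (av A φ) := by
  have hK : IsCompact ((fun p : E ι × E ι => p.1 - p.2) '' (tsupport φ ×ˢ A)) :=
    (hc.isCompact.prod hA).image (by fun_prop)
  refine HasCompactSupport.intro hK fun t ht => ?_
  unfold av
  rw [setIntegral_congr_fun (g := fun _ => (0 : ℝ)) hA.measurableSet]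
  · simp
  · intro a ha
    show φ (t + a) = 0
    by_contra h0
    exact ht ⟨(t + a, a), ⟨subset_tsupport _ h0, ha⟩, by simp⟩

theorem av_nonneg {A : Set (E ι)} {φ : E ι → ℝ} (h0 : ∀ x, 0 ≤ φ x) (t : E ι) :
    0 ≤ av A φ t := integral_nonneg fun a => h0 _

theorem ton {A : Set (E ι)} (hA : IsCompact A) {φ : E ι → ℝ} (hφ : Continuous φ)
    (hc : HasCompactSupport φ) (h0 : ∀ x, 0 ≤ φ x) (m : Measure (E ι)) [IsLocallyFiniteMeasure m] :
    ∫⁻ x, ENNReal.ofReal (φ x) * m {t | x - t ∈ A} = ∫⁻ t, ENNReal.ofReal (av A φ t) ∂m := by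
  have hAm : MeasurableSet A := hA.measurableSet
  have h1 : ∀ x : E ι, ENNReal.ofReal (φ x) * m {t | x - t ∈ A} =
      ∫⁻ t, ENNReal.ofReal (φ x) * A.indicator 1 (x - t) ∂m := by
    intro x
    rw [lintegral_const_mul]
    · congr 1
      have hm : MeasurableSet {t : E ι | x - t ∈ A} :=
        hAm.preimage (by fun_prop : Measurable fun t : E ι => x - t)
      rw [← lintegral_indicator_one hm]
      rfl
    · exact (measurable_one.indicator hAm).comp (by fun_prop)
  have h2 : ∀ t : E ι, ENNReal.ofReal (av A φ t) =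
      ∫⁻ x, ENNReal.ofReal (φ x) * A.indicator 1 (x - t) := by
    intro t
    have h3 : ∫⁻ x, ENNReal.ofReal (φ x) * A.indicator 1 (x - t) =
        ∫⁻ a, ENNReal.ofReal (φ (t + a)) * A.indicator 1 a := by
      rw [← lintegral_add_left_eq_self (μ := (volume : Measure (E ι)))
        (fun x => ENNReal.ofReal (φ x) * A.indicator 1 (x - t)) t]
      simp only [add_sub_cancel_left]
    have h4 : ∫⁻ a, ENNReal.ofReal (φ (t + a)) * A.indicator 1 a =
        ∫⁻ a in A, ENNReal.ofReal (φ (t + a)) := by
      rw [← lintegral_indicator hAm]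
      refine lintegral_congr fun a => ?_
      by_cases ha : a ∈ A
      · simp [ha]
      · simp [ha]
    rw [h3, h4]
    unfold av
    rw [ofReal_integral_eq_lintegral_ofReal]
    · exact ((hφ.comp (continuous_const.add continuous_id)).continuousOn.integrableOn_compact hA)
    · exact Filter.Eventually.of_forall fun a => h0 _
  simp_rw [h1, h2]
  rw [lintegral_lintegral_swap]
  refine (Measurable.mul ?_ ?_).aemeasurable
  · exact (hφ.measurable.comp measurable_fst).ennreal_ofReal
  · exact (measurable_one.indicator hAm).comp (measurable_fst.sub measurable_snd)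

theorem main : S_T3 := by
  intro ι _ A μ ν c c' hA hμ hν hc0 htile hcc hvague
  haveI := hν
  haveI := hμ
  have hc'0 : 0 ≤ c' := ge_of_tendsto' hcc hc0
  have hAm : MeasurableSet A := hA.measurableSet
  let g : E ι → ℝ≥0∞ := fun x => ν {t | x - t ∈ A}
  have hg : Measurable g := by
    have hm : MeasurableSet {p : E ι × E ι | p.1 - p.2 ∈ A} :=
      hAm.preimage (measurable_fst.sub measurable_snd)
    exact measurable_measure_prodMk_left hm
  -- the identity for all test functions
  have key : ∀ φ : E ι → ℝ, Continuous φ → HasCompactSupport φ → (∀ x, 0 ≤ φ x) →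
      ∫⁻ x, ENNReal.ofReal (φ x) * g x = ENNReal.ofReal (c' * ∫ x, φ x) := by
    intro φ hφ hφc hφ0
    have hav := av_cont hA hφ
    have hav' := av_supp hA hφc
    have hint : ∀ m : Measure (E ι), IsLocallyFiniteMeasure m → Integrable (av A φ) m :=
      fun m hm => hav.integrable_of_hasCompactSupport hav'
    have h1 : ∀ k, ∫ t, av A φ t ∂(μ k) = c k * ∫ x, φ x := by
      intro k
      have h2 := ton hA hφ hφc hφ0 (μ k)
      simp_rw [htile k] at h2
      rw [lintegral_mul_const _ hφ.measurable.ennreal_ofReal,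
        ← ofReal_integral_eq_lintegral_ofReal (hφ.integrable_of_hasCompactSupport hφc)
          (Filter.Eventually.of_forall hφ0),
        ← ofReal_integral_eq_lintegral_ofReal (hint (μ k) (hμ k))
          (Filter.Eventually.of_forall (av_nonneg hφ0)),
        ← ENNReal.ofReal_mul (integral_nonneg hφ0)] at h2
      have h3 := (ENNReal.ofReal_eq_ofReal_iff (mul_nonneg (integral_nonneg hφ0) (hc0 k))
        (integral_nonneg (av_nonneg hφ0))).mp h2
      rw [← h3, mul_comm]
    have h4 : ∫ t, av A φ t ∂ν = c' * ∫ x, φ x := by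
      refine tendsto_nhds_unique (hvague _ hav hav') ?_
      simp_rw [h1]
      exact hcc.mul_const _
    show ∫⁻ x, ENNReal.ofReal (φ x) * ν {t | x - t ∈ A} = _
    rw [ton hA hφ hφc hφ0 ν, ← ofReal_integral_eq_lintegral_ofReal (hint ν hν)
          (Filter.Eventually.of_forall (av_nonneg hφ0)), h4]
  let m1 : Measure (E ι) := (volume : Measure (E ι)).withDensity g
  let m2 : Measure (E ι) := (volume : Measure (E ι)).withDensity (fun _ => ENNReal.ofReal c')
  have hm2 : m2 = ENNReal.ofReal c' • (volume : Measure (E ι)) := withDensity_const _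
  haveI : IsLocallyFiniteMeasure m1 := by
    refine ⟨fun x => ?_⟩
    have hK : IsCompact ((fun p : E ι × E ι => p.1 - p.2) '' (Metric.closedBall x 1 ×ˢ A)) :=
      ((isCompact_closedBall x 1).prod hA).image (by fun_prop)
    refine ⟨Metric.ball x 1, Metric.ball_mem_nhds x one_pos, ?_⟩
    show (volume : Measure (E ι)).withDensity g (Metric.ball x 1) < ⊤
    rw [withDensity_apply _ measurableSet_ball]
    have h5 : ∫⁻ y in Metric.ball x 1, g y ≤
        ∫⁻ y in Metric.ball x 1, ν ((fun p : E ι × E ι => p.1 - p.2) ''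
          (Metric.closedBall x 1 ×ˢ A)) := by
      refine setLIntegral_mono measurable_const fun y hy => ?_
      refine measure_mono fun t ht => ?_
      exact ⟨(y, y - t), ⟨Metric.ball_subset_closedBall hy, ht⟩, by simp⟩
    refine lt_of_le_of_lt h5 ?_
    rw [setLIntegral_const]
    exact ENNReal.mul_lt_top hK.measure_lt_top measure_ball_lt_top
  haveI : IsLocallyFiniteMeasure m2 := by
    rw [hm2]
    refine ⟨fun x => ⟨Metric.ball x 1, Metric.ball_mem_nhds x one_pos, ?_⟩⟩
    rw [Measure.smul_apply, smul_eq_mul]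
    exact ENNReal.mul_lt_top ENNReal.ofReal_lt_top measure_ball_lt_top
  have hm : m1 = m2 := by
    apply Measure.ext_of_integral_eq_on_compactlySupported_nnreal
    intro f
    have hf : Continuous (fun x => (f x : ℝ)) := NNReal.continuous_coe.comp f.continuous
    have hfc : HasCompactSupport (fun x => (f x : ℝ)) :=
      f.hasCompactSupport.comp_left NNReal.coe_zero
    have hf0 : ∀ x, (0 : ℝ) ≤ (f x : ℝ) := fun x => (f x).2
    have h6 : ∫ x, (f x : ℝ) ∂m1 = c' * ∫ x, (f x : ℝ) := by
      rw [integral_eq_lintegral_of_nonneg_ae (Filter.Eventually.of_forall hf0)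
        hf.measurable.aestronglyMeasurable]
      rw [lintegral_withDensity_eq_lintegral_mul _ hg hf.measurable.ennreal_ofReal]
      have h7 : ∫⁻ x, (g * fun x => ENNReal.ofReal (f x : ℝ)) x =
          ∫⁻ x, ENNReal.ofReal (f x : ℝ) * g x := by
        refine lintegral_congr fun x => ?_
        rw [Pi.mul_apply, mul_comm]
      rw [h7, key _ hf hfc hf0, ENNReal.toReal_ofReal]
      exact mul_nonneg hc'0 (integral_nonneg hf0)
    rw [h6, hm2, integral_smul_measure, ENNReal.toReal_ofReal hc'0, smul_eq_mul]
  exact (withDensity_eq_iff_of_sigmaFinite hg.aemeasurable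
    (measurable_const.aemeasurable)).mp hm

end Pool.Agent.Helper86.SPX.T3
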